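import Pool.Agent.Q61.DP.Stm

/-!
# Project DP of helper61: job DP-12, `S_LEN`

The length of a curve is at least the variation of the spherical distance of the developing map from a point.
-/

set_option autoImplicit false

namespace Pool.Agent.Q285.DPLen

open MeasureTheory Set Filter Topology Pool.Agent.Q61.DP

/-- the cosine of `th` -/
noncomputable def pc (a b : ℂ → ℂ) (z : ℂ) : ℝ := (‖a z‖ ^ 2 - ‖b z‖ ^ 2) / (‖a z‖ ^ 2 + ‖b z‖ ^ 2)

theorem den_pos {u : ℂ → ℝ} {a b : ℂ → ℂ} (h : Dev u a b) (z : ℂ) : 0 < ‖a z‖ ^ 2 + ‖b z‖ ^ 2 := by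
  rw [h.nm]
  positivity

theorem pc_sq {u : ℂ → ℝ} {a b : ℂ → ℂ} (h : Dev u a b) (z : ℂ) :
    1 - pc a b z ^ 2 = (2 * ‖a z‖ * ‖b z‖ / (‖a z‖ ^ 2 + ‖b z‖ ^ 2)) ^ 2 := by
  have h1 := (den_pos h z).ne'
  unfold pc
  field_simp
  ring

/-- the derivative of `pc` along a curve -/
theorem pc_deriv {u : ℂ → ℝ} {a b : ℂ → ℂ} (h : Dev u a b) {γ : ℝ → ℂ} {g : ℂ} {t : ℝ} (hγ : HasDerivAt γ g t) :
    ∃ d : ℝ, HasDerivAt (fun s => pc a b (γ s)) d t ∧
      |d| ≤ (2 * ‖a (γ t)‖ * ‖b (γ t)‖ / (‖a (γ t)‖ ^ 2 + ‖b (γ t)‖ ^ 2)) * (Real.exp (u (γ t)) * ‖g‖) := by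
  have ha : HasDerivAt (fun s => a (γ s)) (g • deriv a (γ t)) t :=
    (h.da (γ t)).hasDerivAt.scomp t hγ
  have hb : HasDerivAt (fun s => b (γ s)) (g • deriv b (γ t)) t :=
    (h.db (γ t)).hasDerivAt.scomp t hγ
  have hA := ha.norm_sq
  have hB := hb.norm_sq
  have hpos := den_pos h (γ t)
  set α := a (γ t) with hα
  set β := b (γ t) with hβ
  set a' := deriv a (γ t) with ha'
  set b' := deriv b (γ t) with hb'
  have hw : α * b' - a' * β = 1 := h.wr (γ t)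
  have hd := (hA.sub hB).div (hA.add hB) hpos.ne'
  refine ⟨_, hd, ?_⟩
  have e1 : ‖β‖ ^ 2 * inner ℝ α (g • a') - ‖α‖ ^ 2 * inner ℝ β (g • b') =
      -((starRingEnd ℂ) α * (starRingEnd ℂ) β * g).re := by
    have c1 : ((‖β‖ ^ 2 : ℝ) : ℂ) = β * (starRingEnd ℂ) β := by
      rw [Complex.mul_conj, Complex.normSq_eq_norm_sq]
    have c2 : ((‖α‖ ^ 2 : ℝ) : ℂ) = α * (starRingEnd ℂ) α := by
      rw [Complex.mul_conj, Complex.normSq_eq_norm_sq]
    have c3 : ‖β‖ ^ 2 * inner ℝ α (g • a') = (β * (starRingEnd ℂ) β * ((starRingEnd ℂ) α * (g * a'))).re := by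
      rw [← c1, Complex.re_ofReal_mul, Complex.inner, smul_eq_mul]
      ring_nf
    have c4 : ‖α‖ ^ 2 * inner ℝ β (g • b') = (α * (starRingEnd ℂ) α * ((starRingEnd ℂ) β * (g * b'))).re := by
      rw [← c2, Complex.re_ofReal_mul, Complex.inner, smul_eq_mul]
      ring_nf
    rw [c3, c4, ← Complex.sub_re, ← Complex.neg_re]
    congr 1
    linear_combination (-(starRingEnd ℂ) α * (starRingEnd ℂ) β * g) * hw
  have e2 : |‖β‖ ^ 2 * inner ℝ α (g • a') - ‖α‖ ^ 2 * inner ℝ β (g • b')| ≤ ‖α‖ * ‖β‖ * ‖g‖ := by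
    rw [e1, abs_neg]
    refine (Complex.abs_re_le_norm _).trans ?_
    rw [norm_mul, norm_mul, RCLike.norm_conj, RCLike.norm_conj]
  have e3 : Real.exp (u (γ t)) = 2 / (‖α‖ ^ 2 + ‖β‖ ^ 2) := by
    have h1 : ‖α‖ ^ 2 + ‖β‖ ^ 2 = 2 * Real.exp (-(u (γ t))) := h.nm (γ t)
    rw [h1, Real.exp_neg]
    have := Real.exp_pos (u (γ t))
    field_simp
  have e4 : ((2 * inner ℝ α (g • a') - 2 * inner ℝ β (g • b')) * (‖α‖ ^ 2 + ‖β‖ ^ 2) -
      (‖α‖ ^ 2 - ‖β‖ ^ 2) * (2 * inner ℝ α (g • a') + 2 * inner ℝ β (g • b'))) / (‖α‖ ^ 2 + ‖β‖ ^ 2) ^ 2 =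
      4 / (‖α‖ ^ 2 + ‖β‖ ^ 2) ^ 2 * (‖β‖ ^ 2 * inner ℝ α (g • a') - ‖α‖ ^ 2 * inner ℝ β (g • b')) := by
    ring
  have e5 : |4 / (‖α‖ ^ 2 + ‖β‖ ^ 2) ^ 2 * (‖β‖ ^ 2 * inner ℝ α (g • a') - ‖α‖ ^ 2 * inner ℝ β (g • b'))| ≤
      2 * ‖α‖ * ‖β‖ / (‖α‖ ^ 2 + ‖β‖ ^ 2) * (Real.exp (u (γ t)) * ‖g‖) := by
    rw [abs_mul, abs_of_pos (by positivity)]
    calc 4 / (‖α‖ ^ 2 + ‖β‖ ^ 2) ^ 2 * |‖β‖ ^ 2 * inner ℝ α (g • a') - ‖α‖ ^ 2 * inner ℝ β (g • b')|
        ≤ 4 / (‖α‖ ^ 2 + ‖β‖ ^ 2) ^ 2 * (‖α‖ * ‖β‖ * ‖g‖) := mul_le_mul_of_nonneg_left e2 (by positivity)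
      _ = 2 * ‖α‖ * ‖β‖ / (‖α‖ ^ 2 + ‖β‖ ^ 2) * (Real.exp (u (γ t)) * ‖g‖) := by
        rw [e3]
        have hS : (‖α‖ ^ 2 + ‖β‖ ^ 2) ≠ 0 := hpos.ne'
        generalize ‖α‖ ^ 2 + ‖β‖ ^ 2 = S at hS
        field_simp
        ring
  rw [← e4] at e5
  exact e5

theorem continuous_pc {u : ℂ → ℝ} {a b : ℂ → ℂ} (h : Dev u a b) : Continuous (pc a b) := by
  unfold pc
  refine Continuous.div ?_ ?_ fun z => (den_pos h z).ne'
  · exact (h.da.continuous.norm.pow 2).sub (h.db.continuous.norm.pow 2)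
  · exact (h.da.continuous.norm.pow 2).add (h.db.continuous.norm.pow 2)

/-- the regularised distance -/
noncomputable def Gc (a b : ℂ → ℂ) (c : ℝ) (z : ℂ) : ℝ := Real.arccos (c * pc a b z)

theorem pc_le {u : ℂ → ℝ} {a b : ℂ → ℂ} (h : Dev u a b) (z : ℂ) : pc a b z ^ 2 ≤ 1 := by
  have h1 := pc_sq h z
  have h2 : 0 ≤ (2 * ‖a z‖ * ‖b z‖ / (‖a z‖ ^ 2 + ‖b z‖ ^ 2)) ^ 2 := sq_nonneg _
  linarith

theorem Gc_deriv {u : ℂ → ℝ} {a b : ℂ → ℂ} (h : Dev u a b) {c : ℝ} (hc0 : 0 < c) (hc1 : c < 1) {γ : ℝ → ℂ} {g : ℂ} {t : ℝ}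
    (hγ : HasDerivAt γ g t) :
    ∃ d : ℝ, HasDerivAt (fun s => Gc a b c (γ s)) d t ∧ |d| ≤ Real.exp (u (γ t)) * ‖g‖ := by
  obtain ⟨d, hd, hle⟩ := pc_deriv h hγ
  have hp := pc_le h (γ t)
  have hcp : (c * pc a b (γ t)) ^ 2 < 1 := by
    rw [mul_pow]
    have : c ^ 2 < 1 := by nlinarith
    nlinarith [sq_nonneg (pc a b (γ t)), sq_nonneg c]
  have habs : |c * pc a b (γ t)| < 1 := by
    rw [← sq_lt_one_iff_abs_lt_one]
    exact hcp
  have hne1 : c * pc a b (γ t) ≠ -1 := fun h1 => by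
    rw [h1, abs_neg, abs_one] at habs
    exact lt_irrefl _ habs
  have hne2 : c * pc a b (γ t) ≠ 1 := fun h1 => by
    rw [h1, abs_one] at habs
    exact lt_irrefl _ habs
  have h1 : HasDerivAt (fun s => c * pc a b (γ s)) (c * d) t := hd.const_mul c
  have h2 := (Real.hasDerivAt_arccos hne1 hne2).comp t h1
  refine ⟨_, h2, ?_⟩
  have hs : 0 < 1 - (c * pc a b (γ t)) ^ 2 := by linarith
  have hsq := Real.sqrt_pos.2 hs
  have h3 : 2 * ‖a (γ t)‖ * ‖b (γ t)‖ / (‖a (γ t)‖ ^ 2 + ‖b (γ t)‖ ^ 2) ≤ √(1 - (c * pc a b (γ t)) ^ 2) := by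
    apply Real.le_sqrt_of_sq_le
    rw [← pc_sq h (γ t), mul_pow]
    have hc2 : c ^ 2 ≤ 1 := by nlinarith
    have h5 := mul_le_mul_of_nonneg_right hc2 (sq_nonneg (pc a b (γ t)))
    linarith
  rw [abs_mul, abs_neg, abs_div, abs_one, abs_of_pos hsq, abs_mul, abs_of_pos hc0, one_div, inv_mul_le_iff₀ hsq]
  have h4 : 0 ≤ Real.exp (u (γ t)) * ‖g‖ := by positivity
  calc c * |d| ≤ 1 * |d| := mul_le_mul_of_nonneg_right hc1.le (abs_nonneg _)
    _ = |d| := one_mul _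
    _ ≤ _ := hle
    _ ≤ √(1 - (c * pc a b (γ t)) ^ 2) * (Real.exp (u (γ t)) * ‖g‖) := mul_le_mul_of_nonneg_right h3 h4

theorem continuous_u {u : ℂ → ℝ} {a b : ℂ → ℂ} (h : Dev u a b) : Continuous u := by
  have h1 : ∀ z, u z = -Real.log ((‖a z‖ ^ 2 + ‖b z‖ ^ 2) / 2) := by
    intro z
    rw [h.nm, mul_div_cancel_left₀ _ (two_ne_zero), Real.log_exp, neg_neg]
  have h2 : u = fun z => -Real.log ((‖a z‖ ^ 2 + ‖b z‖ ^ 2) / 2) := funext h1
  rw [h2]
  refine Continuous.neg (Continuous.log ?_ fun z => ?_)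
  · exact ((h.da.continuous.norm.pow 2).add (h.db.continuous.norm.pow 2)).div_const 2
  · have := den_pos h z
    positivity

/-- the length element is integrable on a piece -/
theorem piece_int {u : ℂ → ℝ} {a b : ℂ → ℂ} (h : Dev u a b) {γ : ℝ → ℂ} {x y : ℝ} (hxy : x < y)
    (hγ : ContDiffOn ℝ 1 γ (Icc x y)) :
    IntervalIntegrable (fun t => Real.exp (u (γ t)) * ‖deriv γ t‖) volume x y := by
  have hc : ContinuousOn (fun t => Real.exp (u (γ t)) * ‖derivWithin γ (Icc x y) t‖) (Icc x y) := by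
    refine ContinuousOn.mul ?_ ?_
    · exact (Real.continuous_exp.comp (continuous_u h)).comp_continuousOn hγ.continuousOn
    · exact (hγ.continuousOn_derivWithin (uniqueDiffOn_Icc hxy) le_rfl).norm
  have h1 : IntervalIntegrable (fun t => Real.exp (u (γ t)) * ‖derivWithin γ (Icc x y) t‖) volume x y :=
    ContinuousOn.intervalIntegrable (by rwa [uIcc_of_le hxy.le])
  have h2 : ∀ t ∈ Ioo x y, Real.exp (u (γ t)) * ‖derivWithin γ (Icc x y) t‖ = Real.exp (u (γ t)) * ‖deriv γ t‖ := by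
    intro t ht
    rw [derivWithin_of_mem_nhds (Icc_mem_nhds ht.1 ht.2)]
  rw [intervalIntegrable_iff_integrableOn_Ioo_of_le hxy.le] at h1 ⊢
  exact h1.congr_fun h2 measurableSet_Ioo

/-- the estimate on a piece -/
theorem piece_le {u : ℂ → ℝ} {a b : ℂ → ℂ} (h : Dev u a b) {c : ℝ} (hc0 : 0 < c) (hc1 : c < 1) {γ : ℝ → ℂ} {x y : ℝ}
    (hxy : x < y) (hγ : ContDiffOn ℝ 1 γ (Icc x y)) {s t : ℝ} (hs : x ≤ s) (hst : s ≤ t) (ht : t ≤ y) :
    |Gc a b c (γ t) - Gc a b c (γ s)| ≤ ∫ r in s..t, Real.exp (u (γ r)) * ‖deriv γ r‖ := by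
  have hint : IntegrableOn (fun r => Real.exp (u (γ r)) * ‖deriv γ r‖) (Icc s t) := by
    have h1 := (piece_int h hxy hγ).mono_set (a := x) (b := y) (c := s) (d := t) (by
      rw [uIcc_of_le hst, uIcc_of_le hxy.le]
      exact Icc_subset_Icc hs ht)
    rw [intervalIntegrable_iff_integrableOn_Icc_of_le hst] at h1
    exact h1
  have hcont : ContinuousOn (fun r => Gc a b c (γ r)) (Icc s t) := by
    have h1 : Continuous (Gc a b c) := Real.continuous_arccos.comp (continuous_const.mul (continuous_pc h))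
    exact h1.comp_continuousOn (hγ.continuousOn.mono (Icc_subset_Icc hs ht))
  have hder : ∀ r ∈ Ioo s t, ∃ d : ℝ, HasDerivAt (fun s => Gc a b c (γ s)) d r ∧
      |d| ≤ Real.exp (u (γ r)) * ‖deriv γ r‖ := by
    intro r hr
    have h1 : DifferentiableAt ℝ γ r :=
      ((hγ.differentiableOn one_ne_zero) r ⟨by linarith [hr.1], by linarith [hr.2]⟩).differentiableAt
        (Icc_mem_nhds (by linarith [hr.1]) (by linarith [hr.2]))
    exact Gc_deriv h hc0 hc1 h1.hasDerivAt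
  choose! d hd hdle using hder
  rw [abs_le]
  constructor
  · have h1 := intervalIntegral.sub_le_integral_of_hasDeriv_right_of_le hst hcont.neg
      (fun r hr => (hd r hr).neg.hasDerivWithinAt) hint
      (fun r hr => (neg_le_abs (d r)).trans (hdle r hr))
    have h2 : -(Gc a b c (γ t)) - -(Gc a b c (γ s)) ≤ ∫ r in s..t, Real.exp (u (γ r)) * ‖deriv γ r‖ := h1
    linarith
  · exact intervalIntegral.sub_le_integral_of_hasDeriv_right_of_le hst hcont
      (fun r hr => (hd r hr).hasDerivWithinAt) hint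
      (fun r hr => (le_abs_self (d r)).trans (hdle r hr))

/-- the estimate on `[0, 1]` -/
theorem all_le {u : ℂ → ℝ} {a b : ℂ → ℂ} (h : Dev u a b) {γ : ℝ → ℂ} (hγ : PiecewiseC1 γ) :
    IntervalIntegrable (fun t => Real.exp (u (γ t)) * ‖deriv γ t‖) volume 0 1 ∧
    ∀ c : ℝ, 0 < c → c < 1 → ∀ x y : ℝ, 0 ≤ x → x ≤ y → y ≤ 1 →
      |Gc a b c (γ y) - Gc a b c (γ x)| ≤ ∫ r in x..y, Real.exp (u (γ r)) * ‖deriv γ r‖ := by
  obtain ⟨hcont, n, t, hmono, h0, h1, hpc⟩ := hγ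
  have key : ∀ i ≤ n, IntervalIntegrable (fun t => Real.exp (u (γ t)) * ‖deriv γ t‖) volume 0 (t i) ∧
      ∀ c : ℝ, 0 < c → c < 1 → ∀ x y : ℝ, 0 ≤ x → x ≤ y → y ≤ t i →
        |Gc a b c (γ y) - Gc a b c (γ x)| ≤ ∫ r in x..y, Real.exp (u (γ r)) * ‖deriv γ r‖ := by
    intro i
    induction i with
    | zero =>
      intro _
      rw [h0]
      refine ⟨IntervalIntegrable.refl, fun c _ _ x y hx hxy hy => ?_⟩
      have e1 : x = 0 := by linarith
      have e2 : y = 0 := by linarith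
      rw [e1, e2, sub_self, abs_zero, intervalIntegral.integral_same]
    | succ i ih =>
      intro hi
      obtain ⟨ih1, ih2⟩ := ih (by omega)
      have hti : t i ≤ t (i + 1) := hmono (Nat.le_succ i)
      have ht0 : 0 ≤ t i := by
        rw [← h0]
        exact hmono (Nat.zero_le i)
      rcases hti.eq_or_lt with he | hlt
      · rw [← he]
        exact ⟨ih1, ih2⟩
      · have hp := hpc i (by omega) hlt
        have hI := piece_int h hlt hp
        refine ⟨ih1.trans hI, fun c hc0 hc1 x y hx hxy hy => ?_⟩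
        by_cases hy' : y ≤ t i
        · exact ih2 c hc0 hc1 x y hx hxy hy'
        · by_cases hx' : t i ≤ x
          · exact piece_le h hc0 hc1 hlt hp hx' hxy hy
          · push Not at hx' hy'
            have a1 := ih2 c hc0 hc1 x (t i) hx hx'.le le_rfl
            have a2 := piece_le h hc0 hc1 hlt hp le_rfl hy'.le hy
            have i1 : IntervalIntegrable (fun t => Real.exp (u (γ t)) * ‖deriv γ t‖) volume x (t i) :=
              ih1.mono_set (by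
                rw [uIcc_of_le hx'.le, uIcc_of_le ht0]
                exact Icc_subset_Icc hx le_rfl)
            have i2 : IntervalIntegrable (fun t => Real.exp (u (γ t)) * ‖deriv γ t‖) volume (t i) y :=
              hI.mono_set (by
                rw [uIcc_of_le hy'.le, uIcc_of_le hlt.le]
                exact Icc_subset_Icc le_rfl hy)
            rw [← intervalIntegral.integral_add_adjacent_intervals i1 i2]
            have a3 : Gc a b c (γ y) - Gc a b c (γ x) = (Gc a b c (γ y) - Gc a b c (γ (t i))) +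
                (Gc a b c (γ (t i)) - Gc a b c (γ x)) := by ring
            rw [a3]
            refine (abs_add_le _ _).trans ?_
            linarith
  have := key n le_rfl
  rw [h1] at this
  exact this

/-- **Job DP-12.** -/
theorem len : S_LEN := by
  intro u a b h γ hγ t ht
  obtain ⟨hint, hle⟩ := all_le h hγ
  have key : ∀ x y : ℝ, 0 ≤ x → x ≤ y → y ≤ 1 →
      |th a b (γ y) - th a b (γ x)| ≤ ∫ r in x..y, Real.exp (u (γ r)) * ‖deriv γ r‖ := by
    intro x y hx hxy hy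
    have hG : ∀ z : ℂ, Tendsto (fun c : ℝ => Gc a b c z) (𝓝[<] 1) (𝓝 (th a b z)) := by
      intro z
      have h1 : Continuous fun c : ℝ => Gc a b c z := Real.continuous_arccos.comp (continuous_id.mul continuous_const)
      have h2 : Tendsto (fun c : ℝ => Gc a b c z) (𝓝 1) (𝓝 (Gc a b 1 z)) := h1.tendsto 1
      have h3 : Gc a b 1 z = th a b z := by
        unfold Gc th pc
        rw [one_mul]
      rw [h3] at h2
      exact h2.mono_left nhdsWithin_le_nhds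
    have h1 : Tendsto (fun c : ℝ => |Gc a b c (γ y) - Gc a b c (γ x)|) (𝓝[<] 1)
        (𝓝 |th a b (γ y) - th a b (γ x)|) := ((hG _).sub (hG _)).abs
    refine le_of_tendsto h1 ?_
    filter_upwards [Ioo_mem_nhdsLT (show (0 : ℝ) < 1 from one_pos)] with c hc
    exact hle c hc.1 hc.2 x y hx hxy hy
  have i1 : IntervalIntegrable (fun t => Real.exp (u (γ t)) * ‖deriv γ t‖) volume 0 t :=
    hint.mono_set (by
      rw [uIcc_of_le ht.1, uIcc_of_le zero_le_one]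
      exact Icc_subset_Icc le_rfl ht.2)
  have i2 : IntervalIntegrable (fun t => Real.exp (u (γ t)) * ‖deriv γ t‖) volume t 1 :=
    hint.mono_set (by
      rw [uIcc_of_le ht.2, uIcc_of_le zero_le_one]
      exact Icc_subset_Icc ht.1 le_rfl)
  unfold glength
  rw [← intervalIntegral.integral_add_adjacent_intervals i1 i2]
  exact add_le_add (key 0 t le_rfl ht.1 ht.2) (key t 1 ht.1 ht.2 le_rfl)

end Pool.Agent.Q285.DPLen
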